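import Pool.Agent.U562.BI.Ext

/-!
# Born-Infeld minimizers with `L^(m-1)_loc` sources have no light segments
-/

set_option autoImplicit false

open MeasureTheory Metric Set
open scoped ENNReal

namespace Pool.Agent.Results.MP_84d657_an.NoLightSegments

open Pool.Agent.U562.BI

/-- Oriented version: there is no segment in `Ω` along which `u` grows with slope `1`. -/
theorem oriented {n : ℕ} {Ω : Set (E (n + 2))} (hO : IsOpen Ω) (hb : Bornology.IsBounded Ω)
    {φ ρ u : E (n + 2) → ℝ} (hφ : InS Ω φ) (hρ : IntegrableOn ρ Ω)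
    (hloc : ∀ K : Set (E (n + 2)), IsCompact K → K ⊆ Ω →
      IntegrableOn (fun x => |ρ x| ^ (n + 1)) K)
    (hu : IsMinimizer Ω φ ρ u) {x y : E (n + 2)} (hxy : x ≠ y) (hseg : segment ℝ x y ⊆ Ω)
    (h : u y - u x = dist x y) : False := by
  have hd : 0 < dist x y := dist_pos.2 hxy
  set L := dist x y with hL
  set e : E (n + 2) := L⁻¹ • (y - x) with he
  have hnorm : ‖y - x‖ = L := by rw [hL, dist_comm, dist_eq_norm]
  have hen : ‖e‖ = 1 := by
    rw [he, norm_smul, norm_inv, Real.norm_eq_abs, abs_of_pos hd, hnorm]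
    field_simp
  have hy : x + L • e = y := by
    rw [he, smul_smul, mul_inv_cancel₀ hd.ne', one_smul]
    abel
  have hmem : ∀ s ∈ Icc (0 : ℝ) L, x + s • e ∈ segment ℝ x y := by
    intro s hs
    rw [segment_eq_image']
    refine ⟨s / L, ⟨div_nonneg hs.1 hd.le, (div_le_one hd).2 hs.2⟩, ?_⟩
    show x + (s / L) • (y - x) = x + s • e
    rw [he, smul_smul, div_eq_mul_inv]
  have hl : LipschitzOnWith 1 u (segment ℝ x y) := lip_convex hu.1.2.2 (convex_segment x y) hseg
  have hl2 : LipschitzOnWith 1 u ((fun s : ℝ => x + s • e) '' Icc 0 L) := by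
    refine hl.mono ?_
    rintro _ ⟨s, hs, rfl⟩
    exact hmem s hs
  have hend0 : u (x + L • e) = u (x + (0 : ℝ) • e) + (L - 0) := by
    rw [hy, zero_smul, add_zero]
    linarith
  have hline : ∀ s ∈ Icc (0 : ℝ) L, x + s • e ∈ Ω ∧ u (x + s • e) = u x + s := by
    intro s hs
    refine ⟨hseg (hmem s hs), ?_⟩
    have := line_light hen hl2 hend0 hs
    rwa [zero_smul, add_zero, sub_zero] at this
  -- forward
  obtain ⟨T₁, hT₁, hf₁, hin₁, hv₁⟩ := reach hO hb hu.1
    (fun c e' r H hball => key hO hb hρ hu H hball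
      (hloc _ (isCompact_closedBall _ _) hball)) hen hd hline
  -- backward
  have hline2 : ∀ s ∈ Icc (0 : ℝ) L, y + s • (-e) ∈ Ω ∧
      (fun x => -u x) (y + s • (-e)) = (fun x => -u x) y + s := by
    intro s hs
    have h1 : y + s • (-e) = x + (L - s) • e := by
      rw [← hy, sub_smul, smul_neg]
      abel
    have h2 := hline (L - s) ⟨by linarith [hs.2], by linarith [hs.1]⟩
    rw [h1]
    refine ⟨h2.1, ?_⟩
    show -u (x + (L - s) • e) = -u y + s
    rw [h2.2]
    linarith
  obtain ⟨T₂, hT₂, hf₂, hin₂, hv₂⟩ := reach hO hb hu.neg.1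
    (fun c e' r H hball => key (ρ := fun x => -ρ x) hO hb hρ.neg hu.neg H hball (by
      have := hloc _ (isCompact_closedBall _ _) hball
      simpa only [abs_neg] using this)) (by rw [norm_neg, hen]) hd hline2
  set p := x + T₁ • e with hp
  set q := y + T₂ • (-e) with hq
  have hq' : q = x + (L - T₂) • e := by
    rw [hq, ← hy, sub_smul, smul_neg]
    abel
  have hdist : dist q p = T₁ + T₂ - L := by
    rw [hq', hp, dist_eq_norm]
    have : x + (L - T₂) • e - (x + T₁ • e) = (L - T₂ - T₁) • e := by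
      rw [sub_smul (L - T₂) T₁]
      abel
    rw [this, norm_smul, hen, mul_one, Real.norm_eq_abs, abs_of_nonpos (by linarith)]
    ring
  have hpq : q ≠ p := by
    intro h1
    rw [h1, dist_self] at hdist
    linarith
  have hopen : openSegment ℝ q p ⊆ Ω := by
    rw [openSegment_eq_image']
    rintro _ ⟨θ, hθ, rfl⟩
    show q + θ • (p - q) ∈ Ω
    have h1 : q + θ • (p - q) = x + (L - T₂ + θ * (T₁ + T₂ - L)) • e := by
      have h2 : p - q = (T₁ + T₂ - L) • e := by
        have : (T₁ + T₂ - L) = T₁ - (L - T₂) := by ring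
        rw [hq', hp, this, sub_smul T₁ (L - T₂)]
        abel
      rw [h2, hq', add_smul (L - T₂), smul_smul θ, add_assoc]
    rw [h1]
    set s := L - T₂ + θ * (T₁ + T₂ - L) with hs
    have hW : 0 < T₁ + T₂ - L := by linarith
    have hs1 : L - T₂ < s := by
      have := mul_pos hθ.1 hW
      linarith
    have hs2 : s < T₁ := by
      have h3 : θ * (T₁ + T₂ - L) < 1 * (T₁ + T₂ - L) := mul_lt_mul_of_pos_right hθ.2 hW
      linarith
    rcases le_total 0 s with h3 | h3
    · exact hin₁ s ⟨h3, hs2⟩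
    · have h4 := hin₂ (L - s) ⟨by linarith, by linarith⟩
      have h5 : y + (L - s) • (-e) = x + s • e := by
        rw [← hy, smul_neg, sub_smul]
        abel
      rwa [h5] at h4
  have hfin := hφ.2 q hf₂ p hf₁ hpq
  have h1 : φ q = u q := (hu.1.2.1 q hf₂).symm
  have h2 : φ p = u p := (hu.1.2.1 p hf₁).symm
  have h3 : -u q = -u y + T₂ := hv₂
  have h4 : |φ q - φ p| = dist q p := by
    rw [h1, h2, hdist, abs_of_nonpos (by linarith)]
    linarith
  rw [h4] at hfin
  exact absurd (pathDist_le hopen) (not_le.2 hfin)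

/-- Let `m ≥ 2`, let `Ω ⊆ ℝᵐ` be open and bounded, `φ ∈ 𝒮(∂Ω)` and
`ρ ∈ L¹(Ω) ∩ L^(m-1)_loc(Ω)`. Then the minimizer of the Born-Infeld functional `I_ρ` on
`𝒴_φ(Ω)` has no light segment. -/
theorem result (m : ℕ) (hm : 2 ≤ m) (Ω : Set (E m)) (hO : IsOpen Ω) (hb : Bornology.IsBounded Ω)
    (φ ρ : E m → ℝ) (hφ : InS Ω φ) (hρ : IntegrableOn ρ Ω)
    (hloc : ∀ K : Set (E m), IsCompact K → K ⊆ Ω →
      MemLp ρ ((m - 1 : ℕ) : ℝ≥0∞) (volume.restrict K))
    (u : E m → ℝ) (hu : IsMinimizer Ω φ ρ u) : ¬ HasLightSegment Ω u := by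
  obtain ⟨n, rfl⟩ := Nat.exists_eq_add_of_le' hm
  have hloc' : ∀ K : Set (E (n + 2)), IsCompact K → K ⊆ Ω →
      IntegrableOn (fun x => |ρ x| ^ (n + 1)) K := by
    intro K hK hKΩ
    have h1 := hloc K hK hKΩ
    have e1 : n + 2 - 1 = n + 1 := rfl
    rw [e1] at h1
    exact h1.integrable_norm_pow (Nat.succ_ne_zero n)
  rintro ⟨x, y, hxy, hseg, h⟩
  rcases le_total (u x) (u y) with h1 | h1
  · rw [abs_of_nonpos (by linarith)] at h
    exact oriented hO hb hφ hρ hloc' hu hxy hseg (by linarith)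
  · rw [abs_of_nonneg (by linarith)] at h
    rw [segment_symm] at hseg
    rw [dist_comm] at h
    exact oriented hO hb hφ hρ hloc' hu hxy.symm hseg h

end Pool.Agent.Results.MP_84d657_an.NoLightSegments
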